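import Mathlib
import Pool.Agent.H51.GamB

set_option autoImplicit false

namespace Pool.Agent.Results.MP_a1f11a_an.Counter

open Pool.Agent.H51.GamB

/-- Norming functionals of `x`. -/
def J1 {X : Type} [NormedAddCommGroup X] [NormedSpace ℝ X] (x : X) : Set (StrongDual ℝ X) :=
  {p | ‖p‖ = 1 ∧ p x = ‖x‖}

/-- The set of values `⟨p₁ - p₂, x₁ - x₂⟩` defining the two moduli. -/
def vals (X : Type) [NormedAddCommGroup X] [NormedSpace ℝ X] (ε : ℝ) : Set ℝ :=
  {g | ∃ x₁ x₂ : X, ‖x₁‖ = 1 ∧ ‖x₂‖ = 1 ∧ ‖x₁ - x₂‖ = ε ∧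
    ∃ p₁ ∈ J1 x₁, ∃ p₂ ∈ J1 x₂, g = (p₁ - p₂) (x₁ - x₂)}

/-- The modulus `γ⁺`. -/
noncomputable def gammaPlus (X : Type) [NormedAddCommGroup X] [NormedSpace ℝ X] (ε : ℝ) : ℝ :=
  sSup (vals X ε)

theorem result : ∃ (X : Type) (_ : NormedAddCommGroup X) (_ : NormedSpace ℝ X),
    FiniteDimensional ℝ X ∧ Module.finrank ℝ X = 2 ∧ ∃ ε ∈ Set.Icc (0 : ℝ) 2,
      (vals X ε).Nonempty ∧ BddAbove (vals X ε) ∧ gammaPlus X ε < ε ^ 2 := by
  have hr : Module.finrank ℝ (LinearMap.range L) = 2 := by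
    rw [LinearMap.finrank_range_of_inj L_inj]; simp
  have hb : ∀ g ∈ vals (LinearMap.range L) (1461 / 1000), g ≤ 21315 / 10000 := by
    rintro _ ⟨⟨_, x, rfl⟩, ⟨_, y, rfl⟩, hx, hy, hxy, p, ⟨p1, p2⟩, r, ⟨r1, r2⟩, rfl⟩
    rw [hx] at p2
    rw [hy] at r2
    have hx' : ‖L x‖ = 1 := hx
    have hy' : ‖L y‖ = 1 := hy
    have hxy' : ‖L (x - y)‖ = 1461 / 1000 := by rw [map_sub]; exact hxy
    obtain ⟨i, hi, a1, a2⟩ := active p p1 x y hx' p2
    obtain ⟨j, hj, b1, b2⟩ := active r r1 y x hy' r2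
    have := core2 hi hj (fun k => hx' ▸ le_norm x k) (fun k => hy' ▸ le_norm y k) (fun k => by
      have := le_norm (x - y) k
      rw [hxy'] at this
      refine le_trans (le_of_eq ?_) this
      simp only [q, Prod.fst_sub, Prod.snd_sub]; ring) a1 b1
    simp only [ContinuousLinearMap.sub_apply, map_sub]
    linarith
  have hn : (vals (LinearMap.range L) (1461 / 1000)).Nonempty := by
    have hc := isConnected_sphere (E := LinearMap.range L)
      (by rw [← Module.finrank_eq_rank, hr]; norm_num) 0 zero_le_one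
    obtain ⟨x, hx⟩ := hc.nonempty
    have hx' : ‖x‖ = 1 := by simpa using hx
    have := hc.isPreconnected.intermediate_value hx (show -x ∈ _ by simpa using hx')
      (f := fun y => ‖x - y‖) (by fun_prop)
    obtain ⟨y, hy, hy2⟩ := this (show (1461 / 1000 : ℝ) ∈ _ by
      simp only [sub_self, norm_zero, sub_neg_eq_add, ← two_smul ℝ x, norm_smul, hx']
      norm_num)
    have hy' : ‖y‖ = 1 := by simpa using hy
    obtain ⟨p, hp⟩ := exists_dual_vector ℝ x (by rw [hx']; norm_num)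
    obtain ⟨r, hr⟩ := exists_dual_vector ℝ y (by rw [hy']; norm_num)
    exact ⟨_, x, y, hx', hy', hy2, p, hp, r, hr, rfl⟩
  refine ⟨LinearMap.range L, inferInstance, inferInstance, inferInstance, hr, 1461 / 1000,
    ⟨by norm_num, by norm_num⟩, hn, ⟨_, hb⟩, (csSup_le hn hb).trans_lt (by norm_num)⟩

end Pool.Agent.Results.MP_a1f11a_an.Counter
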